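import Pool.Agent.W901.RL.Stm2

/-! RL-LAYER: a sum with few large terms -/

set_option autoImplicit false

namespace Pool.Agent.W174.RL

open Pool.Agent.W901.RL

theorem step_ineq (c r x : ℝ) (hc : 0 ≤ c) (hr : 1 ≤ r) (hx : 0 ≤ x) (h : r * x ^ 2 ≤ c) :
    2 * Real.sqrt (c * (r - 1)) + x ≤ 2 * Real.sqrt (c * r) := by
  rcases hc.eq_or_lt with h0 | hpos
  · rw [← h0] at h ⊢
    have hx2 : x ^ 2 ≤ 0 := by nlinarith [sq_nonneg x]
    have hx0 : x = 0 := by nlinarith [sq_nonneg x]
    rw [hx0]
    simp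
  · obtain ⟨a, ha⟩ : ∃ a : ℝ, a = Real.sqrt (c * r) := ⟨_, rfl⟩
    obtain ⟨b, hb⟩ : ∃ b : ℝ, b = Real.sqrt (c * (r - 1)) := ⟨_, rfl⟩
    have hcr : 0 < c * r := by positivity
    have ha0 : 0 < a := by rw [ha]; exact Real.sqrt_pos.mpr hcr
    have hb0 : 0 ≤ b := by rw [hb]; exact Real.sqrt_nonneg _
    have ha2 : a ^ 2 = c * r := by rw [ha]; exact Real.sq_sqrt hcr.le
    have hb2 : b ^ 2 = c * (r - 1) := by
      rw [hb]; exact Real.sq_sqrt (mul_nonneg hc (by linarith))
    have hba : b ≤ a := by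
      rw [ha, hb]
      apply Real.sqrt_le_sqrt
      nlinarith
    rw [← ha, ← hb]
    -- x * a ≤ c
    have hxa : x * a ≤ c := by
      have h1 : (x * a) ^ 2 ≤ c ^ 2 := by
        calc (x * a) ^ 2 = x ^ 2 * a ^ 2 := by ring
          _ = (r * x ^ 2) * c := by rw [ha2]; ring
          _ ≤ c * c := mul_le_mul_of_nonneg_right h hc
          _ = c ^ 2 := by ring
      exact le_of_sq_le_sq h1 hc
    have h2 : (a - b) * (a + b) = c := by nlinarith
    have h3 : (a - b) * (a + b) ≤ (a - b) * (2 * a) :=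
      mul_le_mul_of_nonneg_left (by linarith) (by linarith)
    have h4 : x * a ≤ (2 * (a - b)) * a := by nlinarith
    have h5 : x ≤ 2 * (a - b) := le_of_mul_le_mul_right h4 ha0
    linarith

theorem layer : S_LAYER := by
  intro ι _ J w c hc
  obtain ⟨n, hn⟩ : ∃ n, n = J.card := ⟨_, rfl⟩
  induction n generalizing J with
  | zero =>
    intro _ _
    have : J = ∅ := Finset.card_eq_zero.mp hn.symm
    rw [this]
    simp
  | succ n ih =>
    intro h1 h2
    have hne : J.Nonempty := by
      rw [← Finset.card_pos, ← hn]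
      exact Nat.succ_pos n
    obtain ⟨i0, hi0, hmin⟩ := Finset.exists_min_image J w hne
    have hcard : (J.erase i0).card = n := by
      rw [Finset.card_erase_of_mem hi0, ← hn]
      rfl
    have h3 := ih (J.erase i0) hcard.symm
      (fun i hi => h1 i (Finset.mem_of_mem_erase hi))
      (by
        intro θ hθ hθ1
        refine le_trans ?_ (h2 θ hθ hθ1)
        apply mul_le_mul_of_nonneg_right _ (sq_nonneg θ)
        exact_mod_cast Finset.card_le_card
          (Finset.filter_subset_filter _ (Finset.erase_subset _ _)))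
    have hr : (J.card : ℝ) = n + 1 := by rw [← hn]; push_cast; ring
    have h4 : (J.card : ℝ) * w i0 ^ 2 ≤ c := by
      rcases (h1 i0 hi0).1.eq_or_lt with h0 | hpos
      · rw [← h0]; simpa using hc
      · have h5 := h2 (w i0) hpos (h1 i0 hi0).2
        have h6 : J.filter (fun i => w i0 ≤ w i) = J :=
          Finset.filter_true_of_mem (fun i hi => hmin i hi)
        rwa [h6] at h5
    have h7 := step_ineq c (J.card : ℝ) (w i0) hc
      (by rw [hr]; have : (0 : ℝ) ≤ n := Nat.cast_nonneg n; linarith) (h1 i0 hi0).1 h4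
    rw [← Finset.sum_erase_add J w hi0]
    rw [hcard] at h3
    have h8 : (J.card : ℝ) - 1 = n := by rw [hr]; ring
    rw [h8] at h7
    linarith

end Pool.Agent.W174.RL
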